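import Pool.Agent.H648R4.Final

/-!
# Subset sum in nilpotent-by-polycyclic groups and their overgroups

If a finitely generated group has a finitely generated subgroup `H` that is not virtually nilpotent
and is virtually polycyclic modulo a nilpotent normal subgroup (or just modulo a normal subgroup
contained in the Fitting subgroup), then its subset sum problem is NP-hard, and it is NP-complete
if the word problem is in P.
-/

namespace Pool.Agent.Results.MP_9292e0_lc.FittingByPolycyclic

open Pool.Agent.NPC Pool.Agent.NPC.SSP648 Pool.Agent.H648R3.SSP Pool.Agent.H648R4

/-- Let `G` be a group generated by `g 0, ..., g (n - 1)`.  Suppose that `G` has a finitely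
generated subgroup `H` without nilpotent subgroups of finite index and that `H` has a normal
subgroup `N`, each of whose elements has a nilpotent normal closure in `H`, such that `H` is
reached from `N` by finitely many steps, each adjoining an element that normalises the subgroup
reached so far or passing to an overgroup of finite index.  Then the subset sum problem of `G` with
respect to these generators is `NP`-hard (under polynomial-time many-one reductions), and it is in
`NP` if the word problem of `G` is in `P`. -/
theorem result : ∀ (G : Type*) [Group G] (n : ℕ) (g : Fin n → G),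
    Subgroup.closure (Set.range g) = ⊤ →
    (∃ H : Subgroup G, H.FG ∧
      (∃ N : Subgroup H, N.Normal ∧
        (∀ ν ∈ N, Group.IsNilpotent (Subgroup.normalClosure ({ν} : Set H))) ∧ PC N ⊤) ∧
      ¬ ∃ K : Subgroup H, K.FiniteIndex ∧ Group.IsNilpotent K) →
    NPHardP (SubsetSum g) ∧
      (InPP (fun w : List (Fin n × Bool) => wval g w = 1) → InNPP (SubsetSum g)) := by
  rintro G _ n g hg ⟨H, hfg, ⟨N, hNn, hN, hPC⟩, hnot⟩
  obtain ⟨A, hA, hAn, hAv⟩ := exists_good H hfg N hNn hN hPC hnot
  exact ⟨(hardI_of_subgroup g hg A hA hAn hAv).toNPHardP, inNPP_of_wp g⟩

end Pool.Agent.Results.MP_9292e0_lc.FittingByPolycyclic
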